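import Pool.Agent.helper17.RX.Spec

set_option autoImplicit false

namespace EN

open Finset Real

theorem ENX_adp {m : ℕ} {S : ℕ → Om m → Finset (Fin m)} (h : Rounds S) (i : ℕ) : Adp (S i) := by
  cases i with
  | zero =>
    intro x y _
    rw [h.1 x, h.1 y]
  | succ i =>
    intro x y hxy
    exact (h.2 i x).2 y (fun u hu => hxy u ((h.2 i x).1 hu))

theorem ENX_num (Y : ℝ) (hY : 34 ≤ Y) (j : ℕ) :
    (∑ i ∈ range j, (17 : ℝ) ^ (j - i) * Y ^ i) * Y ≤ 34 * Y ^ j := by
  induction j with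
  | zero => simp
  | succ j ih =>
    have h2 : ∑ i ∈ range j, (17 : ℝ) ^ (j + 1 - i) * Y ^ i =
        17 * ∑ i ∈ range j, (17 : ℝ) ^ (j - i) * Y ^ i := by
      rw [mul_sum]
      apply sum_congr rfl
      intro i hi
      have h3 : j + 1 - i = (j - i) + 1 := by
        have := mem_range.mp hi
        omega
      rw [h3, pow_succ]
      ring
    have h1 : ∑ i ∈ range (j + 1), (17 : ℝ) ^ (j + 1 - i) * Y ^ i =
        17 * (∑ i ∈ range j, (17 : ℝ) ^ (j - i) * Y ^ i + Y ^ j) := by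
      rw [sum_range_succ, h2]
      have h3 : j + 1 - j = 1 := by omega
      rw [h3]
      ring
    rw [h1, pow_succ]
    have h3 : 0 ≤ Y ^ j := by positivity
    have h4 := mul_nonneg (sub_nonneg.mpr hY) h3
    nlinarith

theorem ENX_half : phi (1 / 2) = 0 := by
  unfold phi
  norm_num

theorem ENX_pa {m : ℕ} (u : Fin m) : u ∉ pa u := by
  unfold pa
  rw [mem_filter]
  intro h
  exact lt_irrefl _ h.2

theorem ENX_phi (acp : ACP_stmt) (inq : INQ_stmt) {m : ℕ} (Q : Om m → ℝ) (hQ : Law Q) (u : Fin m)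
    (x : Om m) : 0 ≤ phi (a Q (pa u) u x) ∧ phi (a Q (pa u) u x) ≤ 1 := by
  obtain ⟨_, h0, h1, _⟩ := (acp m Q hQ (pa u) u x).2.2.2.2.2.2 (ENX_pa u)
  obtain ⟨_, h2, h3, _⟩ := inq (a Q (pa u) u x) (a Q (pa u) u x) h0 h1 h0 h1 id id
  exact ⟨h2, h3⟩

theorem ENX_X {m : ℕ} (Q : Om m → ℝ) (S : Om m → Finset (Fin m)) :
    X Q S = ∑ u, ∑ x with u ∈ S x, Q x * phi (a Q (pa u) u x) := by
  have h1 : ∑ u, ∑ x with u ∈ S x, Q x * phi (a Q (pa u) u x) =
      ∑ u, ∑ x, if u ∈ S x then Q x * phi (a Q (pa u) u x) else 0 :=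
    sum_congr rfl fun u _ => sum_filter _ _
  rw [h1, sum_comm]
  unfold X
  apply sum_congr rfl
  intro x _
  rw [mul_sum, ← sum_filter]
  apply sum_congr _ fun _ _ => rfl
  ext u
  simp

theorem ENX_out (acp : ACP_stmt) (loc : LOC_stmt) {m : ℕ} (Q : Om m → ℝ) (hQ : Law Q)
    (Λ : Finset (Fin m)) (hdep : ∀ x y : Om m, (∀ u ∈ Λ, x u = y u) → Q x = Q y) (u : Fin m)
    (hu : u ∉ Λ) (x : Om m) : Q x * phi (a Q (pa u) u x) = 0 := by
  rcases (hQ.1 x).eq_or_lt with h | h
  · rw [← h, zero_mul]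
  · have h1 := (loc m Q Λ hdep (pa u)).2 u hu (ENX_pa u) x
    have h2 : 0 < w Q (pa u) x := lt_of_lt_of_le h (acp m Q hQ (pa u) u x).2.1
    have h3 : a Q (pa u) u x = 1 / 2 := by
      unfold a
      rw [h1]
      field_simp
    rw [h3, ENX_half, mul_zero]

theorem ENX_base {m : ℕ} (S : ℕ → Om m → Finset (Fin m)) (hS : Rounds S) (Q : Om m → ℝ)
    (hQ : Law Q) (v : Fin m) :
    ∑ x with v ∈ S 1 x, Q x = (#{x : Om m | v ∈ S 1 x} : ℝ) / 2 ^ m := by
  have hc : ∀ x y, S 1 x = S 1 y := fun x y => (hS.2 0 y).2 x (fun u hu => by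
    rw [hS.1 y] at hu
    exact absurd hu (notMem_empty _))
  by_cases h : v ∈ S 1 (fun _ => false)
  · have e : (univ.filter fun x : Om m => v ∈ S 1 x) = univ :=
      filter_true_of_mem (fun x _ => by
        rw [hc x (fun _ => false)]
        exact h)
    rw [e, hQ.2, card_univ]
    have e2 : Fintype.card (Om m) = 2 ^ m := by
      simp [Om]
    rw [e2]
    push_cast
    rw [div_self (by positivity)]
  · have e : (univ.filter fun x : Om m => v ∈ S 1 x) = ∅ :=
      filter_false_of_mem (fun x _ => by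
        rw [hc x (fun _ => false)]
        exact h)
    rw [e]
    simp

/-- one step of the induction for one level `i` -/
theorem ENX_level (acp : ACP_stmt) (inq : INQ_stmt) (klq : KLQ_stmt) (loc : LOC_stmt)
    (smx : SMX_stmt) {m : ℕ} {κ : Type} (T : Finset κ) (S : κ → ℕ → Om m → Finset (Fin m))
    (Λ : Finset (Fin m)) (z : Fin m) (N : ℝ) (hN0 : 0 ≤ N) (i : ℕ)
    (ih : ∀ (Q : Om m → ℝ) (L : ℝ), Law Q → (∀ x y : Om m, (∀ u ∈ Λ, x u = y u) → Q x = Q y) →
      0 ≤ L → (∀ x, Q x ≤ exp L / 2 ^ m) → ∀ v ∈ insert z Λ,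
      ∑ τ ∈ T, ∑ x with v ∈ S τ (i + 1) x, Q x ≤ N * (68 * (L + 3 * (i + 1) * log (#Λ + 3))) ^ i)
    (Q : Om m → ℝ) (L : ℝ) (hQ : Law Q) (hdep : ∀ x y : Om m, (∀ u ∈ Λ, x u = y u) → Q x = Q y)
    (hL : 0 ≤ L) (hexp : ∀ x, Q x ≤ exp L / 2 ^ m) :
    ∑ τ ∈ T, X Q (S τ (i + 1)) ≤
      N * (L + 1) * (68 * (L + 3 * (i + 1) * log (#Λ + 3) + 2 * log (#Λ + 3))) ^ i := by
  have hl1 : 1 ≤ log ((#Λ : ℝ) + 3) := by
    rw [Real.le_log_iff_exp_le (by positivity)]
    have e1 := Real.exp_one_lt_d9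
    have e2 : (0 : ℝ) ≤ #Λ := Nat.cast_nonneg _
    linarith
  obtain ⟨n, hn⟩ : ∃ n : Fin m → ℝ, ∀ u, n u = ∑ x, Q x * phi (a Q (pa u) u x) := ⟨_, fun _ => rfl⟩
  have hterm : ∀ u x, 0 ≤ Q x * phi (a Q (pa u) u x) := fun u x =>
    mul_nonneg (hQ.1 x) (ENX_phi acp inq Q hQ u x).1
  have hn0 : ∀ u, 0 ≤ n u := fun u => by
    rw [hn]
    exact sum_nonneg fun x _ => hterm u x
  have hn1 : ∀ u, n u ≤ 1 := fun u => by
    rw [hn, ← hQ.2]
    apply sum_le_sum
    intro x _
    have := mul_le_mul_of_nonneg_left (ENX_phi acp inq Q hQ u x).2 (hQ.1 x)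
    linarith
  have hnΛ : ∀ u, 0 < n u → u ∈ Λ := by
    intro u hu
    by_contra h
    have : n u = 0 := by
      rw [hn]
      exact sum_eq_zero fun x _ => ENX_out acp loc Q hQ Λ hdep u h x
    linarith
  have hnz : ∀ u, ¬ 0 < n u → ∀ x, Q x * phi (a Q (pa u) u x) = 0 := by
    intro u hu x
    have h0 : n u = 0 := le_antisymm (not_lt.mp hu) (hn0 u)
    rw [hn] at h0
    exact (sum_eq_zero_iff_of_nonneg fun x _ => hterm u x).mp h0 x (mem_univ x)
  have hex : ∑ τ ∈ T, X Q (S τ (i + 1)) =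
      ∑ u, ∑ τ ∈ T, ∑ x with u ∈ S τ (i + 1) x, Q x * phi (a Q (pa u) u x) := by
    rw [sum_comm]
    exact sum_congr rfl fun τ _ => ENX_X Q (S τ (i + 1))
  have hfil : ∑ u, ∑ τ ∈ T, ∑ x with u ∈ S τ (i + 1) x, Q x * phi (a Q (pa u) u x) =
      ∑ u with 0 < n u, ∑ τ ∈ T, ∑ x with u ∈ S τ (i + 1) x, Q x * phi (a Q (pa u) u x) := by
    symm
    apply sum_filter_of_ne
    intro u _ hne
    by_contra hu
    apply hne
    apply sum_eq_zero
    intro τ _
    apply sum_eq_zero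
    intro x _
    exact hnz u hu x
  have hone : ∀ u ∈ univ.filter (fun u => 0 < n u),
      ∑ τ ∈ T, ∑ x with u ∈ S τ (i + 1) x, Q x * phi (a Q (pa u) u x) ≤
      N * 68 ^ i * (n u * ((L + 3 * (i + 1) * log (#Λ + 3)) + log (1 / n u)) ^ i) := by
    intro u hu
    have hu0 : 0 < n u := (mem_filter.mp hu).2
    have hlog : 0 ≤ log (1 / n u) := log_nonneg (by
      rw [le_div_iff₀ hu0]
      linarith [hn1 u])
    have h1 := ih (fun x => Q x * phi (a Q (pa u) u x) / n u) (L + log (1 / n u))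
      ⟨fun x => div_nonneg (hterm u x) hu0.le, by
        rw [← sum_div, ← hn]
        exact div_self hu0.ne'⟩ (by
        intro x y hxy
        have e1 := hdep x y hxy
        have e2 := (loc m Q Λ hdep (insert u (pa u))).1 x y hxy
        have e3 := (loc m Q Λ hdep (pa u)).1 x y hxy
        have e4 : a Q (pa u) u x = a Q (pa u) u y := by
          unfold a
          rw [e2, e3]
        show Q x * phi (a Q (pa u) u x) / n u = Q y * phi (a Q (pa u) u y) / n u
        rw [e1, e4]) (by linarith) (by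
        intro x
        show Q x * phi (a Q (pa u) u x) / n u ≤ exp (L + log (1 / n u)) / 2 ^ m
        rw [exp_add, exp_log (by positivity)]
        have e1 : Q x * phi (a Q (pa u) u x) ≤ exp L / 2 ^ m := by
          have e2 := mul_le_mul_of_nonneg_left (ENX_phi acp inq Q hQ u x).2 (hQ.1 x)
          have e3 := hexp x
          linarith
        have e4 : exp L * (1 / n u) / 2 ^ m = exp L / 2 ^ m / n u := by
          field_simp
        rw [e4]
        exact div_le_div_of_nonneg_right e1 hu0.le) u (mem_insert_of_mem (hnΛ u hu0))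
    have h2 : ∑ τ ∈ T, ∑ x with u ∈ S τ (i + 1) x, Q x * phi (a Q (pa u) u x) / n u =
        (∑ τ ∈ T, ∑ x with u ∈ S τ (i + 1) x, Q x * phi (a Q (pa u) u x)) / n u := by
      rw [sum_div]
      exact sum_congr rfl fun τ _ => by rw [sum_div]
    have h3 : (∑ τ ∈ T, ∑ x with u ∈ S τ (i + 1) x, Q x * phi (a Q (pa u) u x)) / n u ≤
        N * (68 * (L + log (1 / n u) + 3 * (i + 1) * log (#Λ + 3))) ^ i := by
      rw [← h2]
      exact h1
    rw [div_le_iff₀ hu0] at h3
    refine h3.trans (le_of_eq ?_)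
    rw [mul_pow]
    have e5 : L + log (1 / n u) + 3 * (i + 1) * log (#Λ + 3) =
        (L + 3 * (i + 1) * log (#Λ + 3)) + log (1 / n u) := by ring
    rw [e5]
    ring
  have hsmx := smx (Fin m) (univ.filter fun u => 0 < n u) n L (L + 3 * (i + 1) * log (#Λ + 3))
    (log (#Λ + 3)) i (fun u hu => ⟨(mem_filter.mp hu).2, hn1 u⟩) (by
      refine le_trans (sum_le_sum_of_subset_of_nonneg (filter_subset _ _) fun u _ _ => hn0 u) ?_
      have h1 := klq m Q hQ L hexp
      refine le_trans (le_of_eq ?_) h1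
      exact sum_congr rfl fun u _ => hn u) (by
      apply log_le_log (by positivity)
      have h1 : (univ.filter fun u => 0 < n u) ⊆ Λ := fun u hu => hnΛ u (mem_filter.mp hu).2
      have h2 : ((#(univ.filter fun u => 0 < n u) : ℕ) : ℝ) ≤ (#Λ : ℝ) := by
        exact_mod_cast card_le_card h1
      linarith) (by
      have h1 : (0 : ℝ) ≤ i := Nat.cast_nonneg _
      nlinarith) hL
  rw [hex, hfil]
  refine (sum_le_sum hone).trans ?_
  rw [← mul_sum]
  refine (mul_le_mul_of_nonneg_left hsmx (by positivity)).trans (le_of_eq ?_)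
  rw [mul_pow]
  ring

theorem ENX (acp : ACP_stmt) (inq : INQ_stmt) (yng : YNG_stmt) (mx : MAX_stmt) (klq : KLQ_stmt)
    (loc : LOC_stmt) (smx : SMX_stmt) : ENX_stmt := by
  intro j m κ T S Λ z N hS hN
  have hN0 : 0 ≤ N := le_trans (sum_nonneg fun τ _ => by positivity) (hN 0 z (mem_insert_self _ _))
  have hl1 : 1 ≤ log ((#Λ : ℝ) + 3) := by
    rw [Real.le_log_iff_exp_le (by positivity)]
    have e1 := Real.exp_one_lt_d9
    have e2 : (0 : ℝ) ≤ #Λ := Nat.cast_nonneg _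
    linarith
  induction j using Nat.strong_induction_on with
  | _ j ih =>
    intro Q L hQ hdep hL hexp v hv
    rcases Nat.eq_zero_or_pos j with hj | hj
    · subst hj
      rw [pow_zero, mul_one]
      refine le_trans (le_of_eq ?_) (hN 1 v hv)
      exact sum_congr rfl fun τ hτ => ENX_base (S τ) (hS τ hτ) Q hQ v
    · obtain ⟨l, hl⟩ : ∃ l, l = log ((#Λ : ℝ) + 3) := ⟨_, rfl⟩
      rw [← hl] at hl1
      obtain ⟨x0, hx0⟩ : ∃ x0, x0 = L + 3 * ((j : ℝ) + 1) * log ((#Λ : ℝ) + 3) := ⟨_, rfl⟩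
      have hj1 : (1 : ℝ) ≤ j := by exact_mod_cast hj
      have hx6 : 6 ≤ x0 := by
        rw [hx0, ← hl]
        nlinarith
      have hlev : ∀ i ∈ range j, ∑ τ ∈ T, X Q (S τ (i + 1)) ≤ N * x0 * (68 * x0) ^ i := by
        intro i hi
        have hij : i < j := mem_range.mp hi
        have h1 := ENX_level acp inq klq loc smx T S Λ z N hN0 i (ih i hij) Q L hQ hdep hL hexp
        refine h1.trans ?_
        have hi1 : (i : ℝ) + 1 ≤ j := by exact_mod_cast hij
        have hi0 : (0 : ℝ) ≤ i := Nat.cast_nonneg _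
        have e1 : L + 3 * ((i : ℝ) + 1) * log ((#Λ : ℝ) + 3) + 2 * log ((#Λ : ℝ) + 3) ≤ x0 := by
          rw [hx0, ← hl]
          nlinarith
        have e2 : L + 1 ≤ x0 := by
          rw [hx0, ← hl]
          nlinarith
        have e3 : 0 ≤ L + 3 * ((i : ℝ) + 1) * log ((#Λ : ℝ) + 3) + 2 * log ((#Λ : ℝ) + 3) := by
          rw [← hl]
          nlinarith
        have e4 : (68 * (L + 3 * ((i : ℝ) + 1) * log ((#Λ : ℝ) + 3) + 2 * log ((#Λ : ℝ) + 3))) ^ i ≤
            (68 * x0) ^ i := pow_le_pow_left₀ (by linarith) (by linarith) i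
        apply mul_le_mul (mul_le_mul_of_nonneg_left e2 hN0) e4 (by positivity) (by positivity)
      have hτ : ∀ τ ∈ T, ∑ x with v ∈ S τ (j + 1) x, Q x ≤
          ∑ i ∈ range j, 17 ^ (j - i) * X Q (S τ (i + 1)) +
            2 * ((#{x : Om m | v ∈ S τ (j + 1) x} : ℝ) / 2 ^ m) := by
        intro τ hτ
        have h1 := (yng m Q hQ (S τ j) (ENX_adp (hS τ hτ) j)).2
          (univ.filter fun x => v ∈ S τ (j + 1) x) (by
            intro x hx y hy
            rw [mem_filter] at hx ⊢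
            refine ⟨mem_univ _, ?_⟩
            rw [((hS τ hτ).2 j x).2 y hy]
            exact hx.2)
        have h2 := mx m Q hQ (S τ) (hS τ hτ) j
        have h3 : 2 * (#{x : Om m | v ∈ S τ (j + 1) x} : ℝ) / 2 ^ m =
            2 * ((#{x : Om m | v ∈ S τ (j + 1) x} : ℝ) / 2 ^ m) := by ring
        rw [h3] at h1
        linarith
      refine (sum_le_sum hτ).trans ?_
      rw [sum_add_distrib, sum_comm, ← mul_sum]
      have hB : 2 * ∑ τ ∈ T, (#{x : Om m | v ∈ S τ (j + 1) x} : ℝ) / 2 ^ m ≤ 2 * N := by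
        linarith [hN (j + 1) v hv]
      have hA : ∑ i ∈ range j, ∑ τ ∈ T, (17 : ℝ) ^ (j - i) * X Q (S τ (i + 1)) ≤
          N * x0 * ∑ i ∈ range j, (17 : ℝ) ^ (j - i) * (68 * x0) ^ i := by
        rw [mul_sum]
        apply sum_le_sum
        intro i hi
        rw [← mul_sum]
        have := mul_le_mul_of_nonneg_left (hlev i hi) (show (0 : ℝ) ≤ 17 ^ (j - i) by positivity)
        refine this.trans (le_of_eq ?_)
        ring
      have hnum := ENX_num (68 * x0) (by linarith) j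
      have hY : 408 ≤ 68 * x0 := by linarith
      have hpow : 68 * x0 ≤ (68 * x0) ^ j := by
        have := pow_le_pow_right₀ (show (1 : ℝ) ≤ 68 * x0 by linarith) hj
        rwa [pow_one] at this
      have hfin : x0 * ∑ i ∈ range j, (17 : ℝ) ^ (j - i) * (68 * x0) ^ i ≤ (68 * x0) ^ j / 2 := by
        linarith
      have hfin2 := mul_le_mul_of_nonneg_left hfin hN0
      have hgoal : N * (68 * (L + 3 * ((j : ℝ) + 1) * log ((#Λ : ℝ) + 3))) ^ j =
          N * (68 * x0) ^ j := by rw [hx0]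
      rw [hgoal]
      have h4 : N * 4 ≤ N * (68 * x0) ^ j := mul_le_mul_of_nonneg_left (by linarith) hN0
      have h5 : N * x0 * ∑ i ∈ range j, (17 : ℝ) ^ (j - i) * (68 * x0) ^ i ≤
          N * ((68 * x0) ^ j / 2) := by
        rw [mul_assoc]
        exact hfin2
      linarith

end EN
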